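import Pool.Agent.TH122.PA.TriG

/-!
# Abundance for the abelian covers of projective space over all arrangements of hyperplanes

Let `ℓ i = 0` be `q` hyperplanes in projective `n`-space, an arbitrary arrangement, and let `X` be an
abelian cover of projective space which is branched over the arrangement, such that the germs of
curves which lift to `X` and meet the arrangement meet some hyperplane with multiplicity at least
`n + 2`. Then `κ = ν` for the projective manifolds `V` birational to `X`, with the values `-∞`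
(the arrangement is reducible, and `V` is ruled), `0` (exactly `n + 2` hyperplanes in general
position, with multiplicities `n + 2`) and `n`. The arrangements of `n + 2` hyperplanes in general
position, which are excluded in the earlier results of this repository, are included.

The function-field language of the starting repository is used: prime divisors over `X` are the
divisorial places `P` of the function field `K` of `X` (`Divisorial`), `P.ord` is the order along
`P`; `KodGe ℂ K n (fun _ => False) h` says that `κ (V) ≥ h`, `NumLe ℂ K n (fun _ => False) 0` that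
`ν (V) ≤ 0`: for every divisor `A` (generated by a finite set of functions) the numbers
`h⁰ (m K_V + A)`, `m ≥ 1`, are bounded; `Psef ℂ K n (fun _ => False)` says that `K_V` is
pseudo-effective, `GeneralType ℂ K n` that `κ (V) = n`, and `Ruled ℂ K` that `V` is birational to
`B × ℙ¹` for some `B`.
-/

set_option autoImplicit false

open FF Pool.Agent.W602.Cov Pool.Agent.W602.GT

namespace Pool.Agent.Results.MP_c2a5fc_ag.AllArrangements

/-- The curve `x (t)` meets the hyperplane `φ = 0` with multiplicity `k` at `t = 0`: the order of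
vanishing of `φ (x (t))` at `t = 0` is `k`. -/
def Meets {n : ℕ} (x : Fin (n + 1) → Polynomial ℂ) (φ : Form n) (k : ℕ) : Prop :=
  ∃ g : Polynomial ℂ, ∑ j, Polynomial.C (φ (Pi.single j 1)) * x j = Polynomial.X ^ k * g ∧
    g.eval 0 ≠ 0

/-- The multiplicities of the cover `X` are at least `m`: whenever a polynomial curve `x (t)` in
projective space, `x (0) ≠ 0`, meets the hyperplanes `ℓ i = 0` at `t = 0` with the multiplicities
`v i`, not all of them `0`, and these multiplicities are compatible with the equations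
`y k ^ m k = ∏ i, ℓ i (x) ^ e k i` of `X`, at least one of them is at least `m`. -/
def Multiplicities {n q r : ℕ} (X : Cover n q r) (m : ℕ) : Prop :=
  ∀ (x : Fin (n + 1) → Polynomial ℂ) (v : Fin q → ℕ), (∃ j, (x j).eval 0 ≠ 0) →
    (∀ i, Meets x (X.ℓ i) (v i)) → v ≠ 0 → (∀ k, X.m k ∣ ∑ i, X.e k i * v i) → ∃ i, m ≤ v i

/-- The arrangement consists of the `n + 2` hyperplanes `ℓ (c j) = 0`, which are in general
position: each `n + 1` of the forms are linearly independent. Hyperplanes may be listed several
times. -/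
def GeneralPosition {n q : ℕ} (ℓ : Fin q → Form n) (c : Fin (n + 2) → Fin q) : Prop :=
  (∀ j : Fin (n + 2), LinearIndependent ℂ fun a => ℓ (c (j.succAbove a))) ∧
    ∀ i, ∃ (j : Fin (n + 2)) (t : ℂ), ℓ i = t • ℓ (c j)

open scoped Classical in
/-- For each `j` the multiplicities `n + 2` for the hyperplane `ℓ (c j) = 0` and `0` for the others
are compatible with the equations of `X`. -/
def Compatible {n q r : ℕ} (X : Cover n q r) (c : Fin (n + 2) → Fin q) : Prop :=
  ∀ j k, X.m k ∣ ∑ i, X.e k i * (if ∃ t : ℂ, X.ℓ i = t • X.ℓ (c j) then n + 2 else 0)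

/-- `κ ≥ 1` contradicts `ν ≤ 0`: the powers of the ratio of two pluricanonical forms. -/
theorem not_kodGe_one {K : Type} [Field K] [Algebra ℂ K] {n : ℕ}
    (h : Pool.Agent.W619.TW.NumLe ℂ K n (fun _ => False) 0) :
    ¬ KodGe ℂ K n (fun _ => False) 1 := by
  rintro ⟨N, hN, ω, hsec, D0, h0, hind⟩
  obtain ⟨C, hC⟩ := h {1}
  have hf : Transcendental ℂ (ω 1 D0 / ω 0 D0) := by
    have := hind.transcendental 0
    simpa using this
  have key := hC ((C + 1) * N) (C + 2) (Nat.mul_pos (Nat.succ_pos C) hN) ?_
  · rw [pow_zero, mul_one] at key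
    omega
  refine ⟨fun i D => ω 1 D ^ (i : ℕ) * ω 0 D ^ (C + 1 - (i : ℕ)), ?_, ?_⟩
  · rw [Fintype.linearIndependent_iff]
    intro g hg
    have h1 := congrFun hg D0
    rw [Finset.sum_apply] at h1
    simp only [Pi.smul_apply, Pi.zero_apply] at h1
    obtain ⟨p, hp⟩ : ∃ p : Polynomial ℂ, p = ∑ i : Fin (C + 2),
      Polynomial.C (g i) * Polynomial.X ^ (i : ℕ) := ⟨_, rfl⟩
    have h2 : Polynomial.aeval (ω 1 D0 / ω 0 D0) p * ω 0 D0 ^ (C + 1) = 0 := by
      rw [hp, map_sum, Finset.sum_mul, ← h1]
      refine Finset.sum_congr rfl fun i _ => ?_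
      rw [map_mul, Polynomial.aeval_C, map_pow, Polynomial.aeval_X, Algebra.smul_def, div_pow]
      have h3 : ω 0 D0 ^ (C + 1) = ω 0 D0 ^ (i : ℕ) * ω 0 D0 ^ (C + 1 - (i : ℕ)) := by
        rw [← pow_add]
        congr 1
        have := i.isLt
        omega
      rw [h3]
      have h4 : ω 0 D0 ^ (i : ℕ) ≠ 0 := pow_ne_zero _ h0
      field_simp
    have h5 : Polynomial.aeval (ω 1 D0 / ω 0 D0) p = 0 :=
      (mul_eq_zero.1 h2).resolve_right (pow_ne_zero _ h0)
    have h6 : p = 0 := by
      by_contra hp0
      exact hf ⟨p, hp0, h5⟩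
    intro i
    have h7 := congrArg (fun p => Polynomial.coeff p (i : ℕ)) h6
    simp only [hp, Polynomial.finsetSum_coeff, Polynomial.coeff_C_mul, Polynomial.coeff_X_pow,
      Polynomial.coeff_zero] at h7
    rw [Finset.sum_eq_single i] at h7
    · simpa using h7
    · intro j _ hj
      rw [if_neg (fun hh => hj (Fin.ext hh.symm)), mul_zero]
    · intro hh
      exact absurd (Finset.mem_univ _) hh
  · intro i
    refine ⟨?_, ?_, fun v _ hv => absurd hv id⟩
    · intro A D
      simp only
      rw [(hsec 1).1 A D, (hsec 0).1 A D]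
      have h3 : A.det ^ ((C + 1) * N) = (A.det ^ N) ^ (i : ℕ) * (A.det ^ N) ^ (C + 1 - (i : ℕ)) := by
        rw [← pow_add, ← pow_mul, mul_comm (C + 1) N]
        congr 2
        have := i.isLt
        omega
      rw [h3]
      ring
    · intro v hv _ D hD
      have hr : ∀ a, v.Reg (ω a D) := fun a => (hsec a).2.2 v hv id D fun l f hf => hD l f hf
      have hpow : ∀ a (m : ℕ), v.Reg (ω a D ^ m) := by
        intro a m
        induction m with
        | zero =>
          rw [pow_zero]
          exact v.reg_one
        | succ m ih =>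
          rw [pow_succ]
          exact v.reg_mul ih (hr a)
      rcases v.reg_mul (hpow 1 (i : ℕ)) (hpow 0 (C + 1 - (i : ℕ))) with h3 | h3
      · exact Or.inl h3
      · refine Or.inr ⟨1, by simp, one_ne_zero, ?_⟩
        rw [v.ord_one, mul_zero]
        exact h3

/-- Multiplicities at least `n + 3` exclude the multiplicities `n + 2` on one hyperplane. -/
theorem not_compatible {n q r : ℕ} (hn : 1 ≤ n) (X : Cover n q r) (h : Multiplicities X (n + 3))
    {c : Fin (n + 2) → Fin q} (hc : GeneralPosition X.ℓ c) : ¬ Compatible X c := by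
  classical
  intro hcal
  obtain ⟨v, hv⟩ : ∃ v : Fin q → ℕ, v = fun i => if ∃ t : ℂ, X.ℓ i = t • X.ℓ (c 0) then n + 2 else 0 :=
    ⟨_, rfl⟩
  have hv0 : v (c 0) = n + 2 := by
    rw [hv]
    exact if_pos ⟨1, (one_smul _ _).symm⟩
  have hle : ∀ i, v i ≤ n + 2 := by
    intro i
    rw [hv]
    dsimp only
    split_ifs
    · exact le_rfl
    · exact Nat.zero_le _
  have hi0 : v (c 1) = 0 := by
    rw [hv]
    refine if_neg ?_
    rintro ⟨t, ht⟩
    obtain ⟨m, rfl⟩ : ∃ m, n = m + 1 := ⟨n - 1, by omega⟩
    have hlin := hc.1 (Fin.last (m + 1 + 1))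
    have e0 : (Fin.last (m + 1 + 1)).succAbove (0 : Fin (m + 1 + 1)) = 0 := by
      rw [Fin.succAbove_last]
      rfl
    have e1 : (Fin.last (m + 1 + 1)).succAbove (1 : Fin (m + 1 + 1)) = 1 := by
      rw [Fin.succAbove_last]
      rfl
    have h01 : (1 : Fin (m + 1 + 1)) ≠ 0 := by
      intro h1
      have := congrArg Fin.val h1
      simp at this
    have h2 := Fintype.linearIndependent_iff.1 hlin
      (fun a => if a = 0 then t else if a = 1 then -1 else 0) (by
        rw [← Finset.sum_subset (Finset.subset_univ {0, 1})]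
        · rw [Finset.sum_pair h01.symm, if_pos rfl, if_neg h01, if_pos rfl, e0, e1, ht]
          simp
        · intro a _ ha
          simp only [Finset.mem_insert, Finset.mem_singleton, not_or] at ha
          rw [if_neg ha.1, if_neg ha.2, zero_smul]) 1
    rw [if_neg h01, if_pos rfl] at h2
    norm_num at h2
  obtain ⟨x, hx, hmx⟩ := Pool.Agent.TH122.PA.exists_arc (ℓ := X.ℓ) v (by
    intro t i ht hi
    by_cases htn : t ≤ n + 2
    · have h1 : X.ℓ i ∈ Submodule.span ℂ {X.ℓ (c 0)} := by
        refine Submodule.span_le.2 ?_ hi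
        rintro _ ⟨j, hj, rfl⟩
        have hj' : t ≤ v j := hj
        have h2 : ∃ s : ℂ, X.ℓ j = s • X.ℓ (c 0) := by
          by_contra hcon
          rw [hv] at hj'
          dsimp only at hj'
          rw [if_neg hcon] at hj'
          omega
        obtain ⟨s, hs⟩ := h2
        rw [hs]
        exact Submodule.smul_mem _ _ (Submodule.mem_span_singleton_self _)
      obtain ⟨s, hs⟩ := Submodule.mem_span_singleton.1 h1
      have h3 : v i = n + 2 := by
        rw [hv]
        exact if_pos ⟨s, hs.symm⟩
      omega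
    · exfalso
      have h1 : {j | t ≤ v j} = (∅ : Set (Fin q)) := by
        ext j
        have h5 := hle j
        constructor
        · intro hj
          have hj' : t ≤ v j := hj
          omega
        · intro hj
          exact absurd hj (Set.notMem_empty j)
      rw [h1, Set.image_empty, Submodule.span_empty] at hi
      exact X.hℓ i ((Submodule.mem_bot ℂ).1 hi)) hi0
  obtain ⟨i, hi⟩ := h x v hx (fun i => hmx i) (fun h0 => by
    rw [h0] at hv0
    simp at hv0) (fun k => by
      rw [hv]
      exact hcal 0 k)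
  have := hle i
  omega

/-- Let `X` be an abelian cover of projective `n`-space, `n ≥ 1`, over an arbitrary arrangement of
hyperplanes, with function field `K`.
(1) If the multiplicities are at least `n + 2`, one of the following holds.
The arrangement is reducible, `X` is ruled and the canonical bundle is not pseudo-effective
(`κ = ν = -∞`).
The arrangement consists of `n + 2` hyperplanes in general position, the multiplicities `n + 2` are
compatible with the equations of `X`, and `κ ≥ 0`, not `κ ≥ 1`, and `ν ≤ 0`, so that `κ = ν = 0`.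
In all other cases `X` is of general type (`κ = ν = n`).
(2) If the multiplicities are at least `n + 3`, the second case does not occur. -/
theorem result (n q r : ℕ) (hn : 1 ≤ n) (X : Cover n q r) (hX : X.Free) (K : Type) [Field K]
    [Algebra ℂ K] (x : Fin (n + 1) → K) (y : Fin r → K) (hK : X.FunctionField K x y) :
    (Multiplicities X (n + 2) →
      (Reducible X.ℓ ∧ Ruled ℂ K ∧ ¬ Psef ℂ K n (fun _ => False)) ∨
      (¬ Reducible X.ℓ ∧ (∃ c, GeneralPosition X.ℓ c ∧ Compatible X c) ∧
        KodGe ℂ K n (fun _ => False) 0 ∧ ¬ KodGe ℂ K n (fun _ => False) 1 ∧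
        Pool.Agent.W619.TW.NumLe ℂ K n (fun _ => False) 0) ∨
      (¬ Reducible X.ℓ ∧ (¬ ∃ c, GeneralPosition X.ℓ c ∧ Compatible X c) ∧
        GeneralType ℂ K n)) ∧
    (Multiplicities X (n + 3) →
      (Reducible X.ℓ ∧ Ruled ℂ K ∧ ¬ Psef ℂ K n (fun _ => False)) ∨
      (¬ Reducible X.ℓ ∧ GeneralType ℂ K n)) := by
  have h1 : Multiplicities X (n + 2) →
      (Reducible X.ℓ ∧ Ruled ℂ K ∧ ¬ Psef ℂ K n (fun _ => False)) ∨
      (¬ Reducible X.ℓ ∧ (∃ c, GeneralPosition X.ℓ c ∧ Compatible X c) ∧
        KodGe ℂ K n (fun _ => False) 0 ∧ ¬ KodGe ℂ K n (fun _ => False) 1 ∧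
        Pool.Agent.W619.TW.NumLe ℂ K n (fun _ => False) 0) ∨
      (¬ Reducible X.ℓ ∧ (¬ ∃ c, GeneralPosition X.ℓ c ∧ Compatible X c) ∧
        GeneralType ℂ K n) := by
    intro h
    rcases Pool.Agent.TH122.PA.trichotomyG2 hn X hX hK h with h2 | ⟨h2, h3, h4, h5⟩ | h2
    · exact Or.inl h2
    · exact Or.inr (Or.inl ⟨h2, h3, h4, not_kodGe_one h5, h5⟩)
    · exact Or.inr (Or.inr h2)
  refine ⟨h1, fun h => ?_⟩
  have h2 : Multiplicities X (n + 2) := by
    intro x v hx hm hv hk
    obtain ⟨i, hi⟩ := h x v hx hm hv hk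
    exact ⟨i, by omega⟩
  rcases h1 h2 with h3 | ⟨-, ⟨c, h4, h5⟩, -⟩ | h3
  · exact Or.inl h3
  · exact absurd h5 (not_compatible hn X h h4)
  · exact Or.inr ⟨h3.1, h3.2.2⟩

end Pool.Agent.Results.MP_c2a5fc_ag.AllArrangements
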