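import Pool.Agent.X180.Abn.Sys1

/-!
# Abundance for fibrations whose fibres dominate a constant variety, over bases with highly ramified
linear systems

Let `X` be a smooth projective variety of dimension `d + e` and `|V|` a linear system on `X`, without
fixed components, of dimension `n`, whose rational map `X ⇢ ℙⁿ` has an image `Y` of dimension `d`,
`1 ≤ d ≤ n`. `Y` may be any nondegenerate variety of dimension `d`, for instance a rational one. Let
`D i` (`i < q`) be members of `|V|` which span `V`, in arbitrary position, which do not lie in two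
complementary subsystems, and suppose that at every prime divisor `P` of `X` which is a component of
some `D i` the multiplicities of `P` in two members `D i`, `D i'` differ by at least `s`, where
`s > (n + 2) (n - d + 1) (n - d + 2) / 2`, or only `s > (n + 1) (n - d + 1) (n - d + 2) / 2` if there
are at least `n + 3` different `D i`.

Let `X → W` be the fibre space of `X ⇢ Y` (`W` is the normalization of `Y` in the function field of
`X`) and `F` its geometric generic fibre, a variety of dimension `e` over the algebraic closure `Λ` of
the function field of `W`. Suppose that `F` has a generically finite rational map to a variety `F₀`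
of dimension `e` which is defined over `ℂ` (for instance, the fibres of `X → W` are all birational to
`F₀`, or are covers of `F₀` with a branch divisor which moves). Then `κ(X) ≥ d + κ(F₀)`, and
`ν(X) ≤ d + ν(F)`. So if `κ(F₀) = ν(F)` then

  `κ(X) = ν(X) = d + κ(F₀)`:

abundance for the fibres implies abundance for `X`. The canonical bundle of a minimal model of `X` is
then semiample (Kawamata).

Notation: `K` and `M` are the function fields of `X` and `F₀`, `L` that of `W`; prime divisors are
places (`Place`, `Divisorial`), `P.ord` is the order along `P`. If `a` is the minimum of the orders at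
`P` of the members of `V` then the multiplicity of `P` in the divisor given by `f ∈ V` is
`P.ord f - a`. `KodTr k K n h`: the Kodaira dimension is at least `h`, that is, there are `h + 1`
pluricanonical forms of which the `h` ratios are algebraically independent;
`NumLe k K n (fun _ => False) h`: the numerical dimension is at most `h`, that is
`h⁰ (m K + A) ≤ C m ^ h` for each divisor `A` (`Pool/Agent/W619`).

Proof: the rational map from `F` to `F₀` is defined over a finite extension `K'` of `K`, generated by
an element which is algebraic over `L`. A vector field `G` on `X` which is tangent to the fibres and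
regular at the prime divisor `P` lifts to a vector field on `X'` which is regular at the prime
divisors over `P`: if `P` dominates `W` then `X'` is unramified over `P`, otherwise `G` is logarithmic
at `P`. Therefore the norm of the form on `X'` defined by a pluricanonical form of `F₀` is a form
along the fibres of `X` which takes regular values on regular vector fields. It is multiplied with
generalised Wronskians of `V` (`Pool.Agent.TH585.SV.lin_fib`). The upper bound is the numerical easy
addition (`Pool.Agent.Y174.easy_add`).
-/

set_option autoImplicit false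

open FF Pool.Agent.W619.TW Pool.Agent.W619.Y
open Pool.Agent.W602.GT (Divisorial)

namespace Pool.Agent.Results.MP_c2a5fc_ag.IsotrivialAbundance

section

variable {K : Type} [Field K] [Algebra ℂ K]

/-- The function field of the image of the rational map which is given by the linear system `V`: the
field generated by the quotients of the members. -/
noncomputable def ImageField (V : Submodule ℂ K) : IntermediateField ℂ K :=
  IntermediateField.adjoin ℂ {y : K | ∃ f ∈ V, ∃ g ∈ V, y = f / g}

/-- `V` is not the direct sum of two nonzero subspaces which together contain all the `φ i`. -/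
def Indecomposable {q : ℕ} (V : Submodule ℂ K) (φ : Fin q → K) : Prop :=
  ∀ V₁ V₂ : Submodule ℂ K, V₁ ⊔ V₂ = V → V₁ ⊓ V₂ = ⊥ → (∀ i, φ i ∈ V₁ ∨ φ i ∈ V₂) →
    V₁ = ⊥ ∨ V₂ = ⊥

/-- There are `r` members `φ i` of which no two are proportional. -/
def Different (r : ℕ) {q : ℕ} (φ : Fin q → K) : Prop :=
  ∃ τ : Fin r → Fin q, ∀ i j, i ≠ j → ∀ t : ℂ, φ (τ i) ≠ t • φ (τ j)

/-- The condition on the multiplicities, on a variety `X` of dimension `w`: if the prime divisor `P`
of `X` is a component of one of the divisors `D i` (the order of `φ i` at `P` is not the minimum `a`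
of the orders of the members of `V`), then for some members `D i`, `D i'` the difference of the
multiplicities of `P` is at least `s`. -/
def Multiplicities (w : ℕ) {q : ℕ} (V : Submodule ℂ K) (φ : Fin q → K) (s : ℝ) : Prop :=
  ∀ P : Place ℂ K, Divisorial w P → ∀ a : ℤ, (∀ f ∈ V, f = 0 ∨ a ≤ P.ord f) →
    (∃ f ∈ V, f ≠ 0 ∧ P.ord f = a) → (∃ i, P.ord (φ i) ≠ a) →
    ∃ i i', s ≤ ((P.ord (φ i) - P.ord (φ i') : ℤ) : ℝ)

end

/-- Let `K` be the function field of a smooth projective variety `X` of dimension `d + e`, `V` a
linear system of dimension `n` on `X` whose rational map has an image `Y` of dimension `d`,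
`1 ≤ d ≤ n`; `φ i` nonzero members which span `V` and do not lie in two complementary subspaces,
`R = n + 2`, or `R = n + 1` if there are `n + 3` different members, and
`s > R (n - d + 1) (n - d + 2) / 2` a number for which the condition on the multiplicities holds. Let
`L` be the algebraic closure of the function field of `Y` in `K` (the function field of `W`), `Λ` an
algebraic closure of `L`, and `F` the function field of the geometric generic fibre of `X → W`, which
is generated by `K` and `Λ`. Let `M` be the function field of a variety `F₀` over `ℂ` of dimension `e`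
and let the geometric generic fibre have a generically finite dominant rational map to `F₀`: `F` is
algebraic over the field which is generated by `Λ` and `M`.

Then `κ(X) ≥ d + h` if `κ(F₀) ≥ h`, and `ν(X) ≤ d + h` if the numerical dimension of the geometric
generic fibre is at most `h`. If both hold then `κ(X) = ν(X) = d + h`. -/
theorem result (d e n q : ℕ) (hd : 1 ≤ d) (hdn : d ≤ n) {K : Type} [Field K] [Algebra ℂ K]
    [Algebra.EssFiniteType ℂ K] (hK : Algebra.trdeg ℂ K = (d + (e + 1) : ℕ))
    -- the linear system
    (V : Submodule ℂ K) (hn : Module.finrank ℂ V = n + 1)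
    (hV : Algebra.trdeg ℂ (ImageField V) = d) (φ : Fin q → K) (hφ0 : ∀ i, φ i ≠ 0)
    (hφ : Submodule.span ℂ (Set.range φ) = V) (hind : Indecomposable V φ)
    (R : ℕ) (hR : R = n + 2 ∨ (Different (n + 3) φ ∧ R = n + 1)) (s : ℝ)
    (hs : (R : ℝ) * (((n : ℝ) - d + 1) * ((n : ℝ) - d + 2)) < 2 * s)
    (hm : Multiplicities (d + (e + 1)) V φ s)
    -- the fibre space
    (L : IntermediateField ℂ K) [Algebra.EssFiniteType ℂ L]
    (hL : ∀ x : K, x ∈ L ↔ IsAlgebraic (ImageField V) x)
    -- the geometric generic fibre
    {Λ F : Type} [Field Λ] [Field F] [Algebra L Λ] [IsAlgClosure L Λ] [Algebra Λ F] [Algebra K F]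
    [IsScalarTower L Λ F] [Algebra ℂ Λ] [Algebra ℂ F] [IsScalarTower ℂ L Λ] [IsScalarTower ℂ Λ F]
    [IsScalarTower ℂ K F] (hF : IntermediateField.adjoin Λ (Set.range (algebraMap K F)) = ⊤)
    -- the constant variety
    (M : IntermediateField ℂ F) [Algebra.EssFiniteType ℂ M]
    (hM : Algebra.trdeg ℂ M = (e + 1 : ℕ))
    (hdom : ∀ z : F, IsAlgebraic (IntermediateField.adjoin Λ (M : Set F)) z) (h : ℕ) :
    (KodTr ℂ M (e + 1) h → KodTr ℂ K (d + (e + 1)) (d + h)) ∧
    (NumLe Λ F (e + 1) (fun _ => False) h →
      NumLe ℂ K (d + (e + 1)) (fun _ => False) (d + h)) := by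
  have hVL : ImageField V ≤ L := fun x hx => (hL x).2 (isAlgebraic_algebraMap (⟨x, hx⟩ :
    ImageField V))
  have hLalg : ∀ x ∈ L, IsAlgebraic (ImageField V) x := fun x hx => (hL x).1 hx
  have hLA : L = Pool.Agent.X180.Iso.Acl (ImageField V) := by
    ext x
    rw [hL, Pool.Agent.X180.Iso.mem_acl]
  have hΛalg : Algebra.IsAlgebraic L Λ := IsAlgClosure.isAlgebraic
  have hLK : ∀ x : K, IsIntegral L x → ∃ y : L, algebraMap L K y = x := by
    intro x hx
    have h1 : IsAlgebraic (Pool.Agent.X180.Iso.Acl (ImageField V)) x := by
      rw [← hLA]
      exact hx.isAlgebraic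
    have h2 : x ∈ L := by
      rw [hLA]
      exact Pool.Agent.X180.Iso.acl_acl h1
    exact ⟨⟨x, h2⟩, rfl⟩
  have htrL : Algebra.trdeg ℂ L = d := by
    rw [← hV]
    exact Pool.Agent.X180.Abn.trdeg_of_alg hVL hLalg
  refine ⟨fun hk => ?_, fun hnum => ?_⟩
  · have hRc : (R + 1 = n + 3 ∨ (1 = 1 ∧ (∃ τ : Fin (n + 3) → Fin q, ∀ i j, i ≠ j → ∀ t : ℂ,
        φ (τ i) ≠ t • φ (τ j)) ∧ R = n + 1)) := by
      rcases hR with h1 | ⟨h1, h2⟩
      · left
        omega
      · exact Or.inr ⟨rfl, h1, h2⟩
    have h1 := Pool.Agent.X180.Iso.iso_kod (c := 1) hd hdn hK hV hφ0 hφ 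
      (Pool.Agent.X180.Abn.dcp_one hφ hn) (Pool.Agent.X180.Abn.not_dcp hind) hRc hs.le (fun P hP a h1 h2 h3 => by
        obtain ⟨i, i', h4⟩ := hm P hP a h1 h2 h3
        exact ⟨i, i', rfl, h4⟩)
      (Pool.Agent.X180.Abn.geo_forms hK (Pool.Agent.X180.Iso.trdeg_rel hK hV) hLalg hF
        (fun z => ((hΛalg.isAlgebraic z).algHom (IsScalarTower.toAlgHom L Λ F))) M hM hdom
        (Pool.Agent.X180.Abn.kodGe_of_kodTr hk) _)
    have h2 := h1.2 hs d rfl
    exact Pool.Agent.X180.Abn.kodTr_of_kodGe h2
  · exact Pool.Agent.Y174.easy_add ‹Algebra.EssFiniteType ℂ L› ‹Algebra.EssFiniteType ℂ K› hF hLK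
      htrL hK hnum

end Pool.Agent.Results.MP_c2a5fc_ag.IsotrivialAbundance
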