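import Pool.Agent.X324.PA.Abu

/-!
# Abundance for varieties which are generically finite over a product of projective spaces

Let `X` be a projective variety with canonical singularities (for instance a projective manifold)
and `X ⇢ ∏ i, ℙ ^ (n i)` a generically finite dominant rational map, `i < r`. On the factors
hyperplanes `ℓ i k = 0`, `k < q i`, are given, arbitrary arrangements (general position is not
assumed). The number `v i k` is the multiplicity of the hyperplane `ℓ i k = 0` at a place of the
function field `K` of `X`. Suppose:

* (lower bounds, at the prime divisors `P` of `X` only) for each factor let `g i` be one of the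
  functions `(max v i k) / (n i + 2)` (the arrangement must not be reducible),
  `(max v i k) / (n i + 1)` (and does not consist of `n i + 2` hyperplanes in general position),
  or the (combinatorial) log discrepancy with respect to a log Calabi-Yau pair
  `(ℙ ^ (n i), ∑ w k H k)`. If not all `v i k` are zero at `P`, then `1 ≤ ∑ i, g i (v i)`; and
  `1 < ∑ i, g i (v i)` if the distinguished hyperplane `k0 i` of a factor `i ∈ I` has a positive
  multiplicity at `P`;
* (upper bounds, at the places `P` over the prime divisors of the product; `m` is the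
  ramification index) for the factors `i ∉ I` there are weights `w i k ≥ 0` of the hyperplanes
  with the sum `n i + 1` such that `m ≤ 1 + ∑ k, w i k * v i k` if not all `v i k`, `k < q i`, are
  zero; and `m = 1` if all multiplicities `v i k` of all factors are zero and none of finitely many
  functions `f ∈ F`, which are pulled back from the product of the factors `i ∈ I`, has a zero or a
  pole at `P`. So the ramification over the divisors which come from the product of the factors
  `i ∈ I` is arbitrary.

Then `κ(X) = ν(X) = ∑ i ∈ I, n i` (the numerical dimension with respect to any effective integral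
divisor `A`; if `K_X` is nef, this is the numerical dimension of the problem). For minimal `X` this
means that `K_X` is semiample.

The set `I` is arbitrary. If `I` is the set of all factors then there is no condition on the
ramification (`X` is of general type); if `I` is empty then `κ(X) = ν(X) = 0`. The sum
`∑ i, g i (v i)` is over all factors: at the prime divisors of `X` whose image in the product is
small the multiplicities on one of the factors alone do not have to satisfy any bound, and the form
which is found is not a product of forms of the factors with poles on `X`.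

The proof: the lower bound for the Kodaira dimension is given by products of determinants of
logarithmic derivatives of the linear forms, with a weight on the bases of each arrangement
(`Pool.Agent.TH756.PN`, a library of the starting repository whose theorem on pairs had not been
handed in). For the upper bound of the numerical dimension the traces to the product of the
sections of `m K_X + A` are polynomials whose degrees in the coordinates of the factors `i ∉ I` are
bounded, up to a denominator which does not depend on `m`; since the singularities of `X` are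
canonical, the orders of the sections at all places of `K` (also at those whose centre on `X` is
small) are bounded below independently of `m` (`Pool.Agent.Y191.can_bound`).

The definitions of the Kodaira dimension and the numerical dimension are those of
`Pool.Agent.Y172`: `X` is given by the homogeneous coordinates `y` of its generic point, with values
in `K`; the prime divisors of `X` are places `P` of `K`, `P.ord` is the order along `P`.
-/

set_option autoImplicit false

open FF Module MvPolynomial Pool.Agent.W602.Cov Pool.Agent.W602.GT Pool.Agent.TH152.AC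
open Pool.Agent.Y172 Pool.Agent.Y191

namespace Pool.Agent.Results.MP_c2a5fc_ag.ProjectiveProductCovers

section bounds

variable {n q : ℕ}

/-- In suitable linear coordinates `X 0, ..., X n` each of the hyperplanes is one of `X j = 0` or
`X 0 + ... + X n = 0`. The arrangements with this property which are not reducible are, up to
repetitions, the arrangements of `n + 2` hyperplanes in general position. -/
def Simplicial (ℓ : Fin q → Form n) : Prop :=
  ∃ X : Basis (Fin (n + 1)) ℂ (Form n), ∀ i,
    (∃ c : ℂ, ℓ i = c • ∑ j, X j) ∨ ∃ (j : Fin (n + 1)) (c : ℂ), ℓ i = c • X j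

/-- `(ℙ ^ n, ∑ w k H k)` is a log Calabi-Yau pair with rational weights: `w` is a rational convex
combination of the vectors with entries `1` for the `n + 1` hyperplanes of a basis `B` (that is, of
`n + 1` linearly independent ones) and `0` for all others. -/
def LogCalabiYau (ℓ : Fin q → Form n) (w : Fin q → ℚ) : Prop :=
  ∃ p : Bases ℓ → ℕ, 0 < ∑ B, p B ∧ ∀ k, (∑ B, (p B : ℚ)) * w k =
    ∑ B, (p B : ℚ) * ((Finset.univ.filter fun a => B.1 a = k).card : ℚ)

/-- The maximum of the sums of the `v k` over the bases, minus the sum of the `w k * v k`. This is the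
log discrepancy of the pair `(ℙ ^ n, ∑ w k H k)` at the toric divisors over the projective space along
which the hyperplanes have the multiplicities `v k`, and a lower bound for it at all divisors with
these multiplicities. -/
noncomputable def logDiscrepancy (ℓ : Fin q → Form n) (w : Fin q → ℚ) (v : Fin q → ℕ) : ℚ :=
  ((Finset.univ.sup fun B : Bases ℓ => ∑ a, v (B.1 a) : ℕ) : ℚ) - ∑ k, w k * v k

/-- The lower bounds for one arrangement. -/
inductive Bound (ℓ : Fin q → Form n) : ((Fin q → ℕ) → ℚ) → Prop
  | irreducible : ¬ Reducible ℓ →
      Bound ℓ fun v => ((Finset.univ.sup v : ℕ) : ℚ) / ((n + 2 : ℕ) : ℚ)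
  | notSimplicial : ¬ Reducible ℓ → ¬ Simplicial ℓ →
      Bound ℓ fun v => ((Finset.univ.sup v : ℕ) : ℚ) / ((n + 1 : ℕ) : ℚ)
  | logCalabiYau (w : Fin q → ℚ) : LogCalabiYau ℓ w → Bound ℓ (logDiscrepancy ℓ w)

end bounds

/-- The value of a linear form at a vector over `K`. -/
noncomputable def form {n : ℕ} {K : Type} [Field K] [Algebra ℂ K] (φ : Form n)
    (x : Fin (n + 1) → K) : K := ∑ j, algebraMap ℂ K (φ (Pi.single j 1)) * x j

section divisors

variable {r : ℕ} {n q : Fin r → ℕ} {K : Type} [Field K] [Algebra ℂ K]

/-- The affine coordinates of the product of the projective spaces. -/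
noncomputable def affine (x : ∀ i, Fin (n i + 1) → K) (b : (i : Fin r) × Fin (n i)) : K :=
  x b.1 b.2.succ / x b.1 0

/-- The hyperplanes `ℓ i k` have the multiplicities `v i k` at `P`: their orders are `a i + v i k`,
where `a i` is the minimum of the orders of all linear forms on the `i`-th factor. -/
def Multiplicities (ℓ : ∀ i, Fin (q i) → Form (n i)) (x : ∀ i, Fin (n i + 1) → K)
    (P : Place ℂ K) (a : Fin r → ℤ) (v : ∀ i, Fin (q i) → ℕ) : Prop :=
  (∀ i (φ : Form (n i)), form φ (x i) = 0 ∨ a i ≤ P.ord (form φ (x i))) ∧
    (∀ i, ∃ φ : Form (n i), form φ (x i) ≠ 0 ∧ P.ord (form φ (x i)) = a i) ∧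
    ∀ i k, P.ord (form (ℓ i k) (x i)) = a i + v i k

/-- The degree of a polynomial in the affine coordinates of the `i`-th factor. -/
def degreeIn (i : Fin r) (f : MvPolynomial ((i : Fin r) × Fin (n i)) ℂ) : ℕ :=
  f.support.sup fun m => ∑ j : Fin (n i), m ⟨i, j⟩

/-- The place `P` of `K` lies over a prime divisor of the product of the projective spaces, with
ramification index `m`: over the hypersurface `p = 0`, `p` an irreducible polynomial in the affine
coordinates, or over the hyperplane at infinity `x i 0 = 0` of the `i`-th factor. -/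
def LiesOver (x : ∀ i, Fin (n i + 1) → K) (P : Place ℂ K) (m : ℕ) : Prop :=
  (∃ p : MvPolynomial ((i : Fin r) × Fin (n i)) ℂ, Irreducible p ∧
    P.ord (aeval (affine x) p) = m ∧ ∀ f, f ≠ 0 → 0 ≤ P.ord (aeval (affine x) f) ∧
      (P.ord (aeval (affine x) f) = 0 ↔ ¬ p ∣ f)) ∨
  (0 < m ∧ ∃ i, ∀ f, f ≠ 0 → P.ord (aeval (affine x) f) = - ((m : ℤ) * (degreeIn i f : ℤ)))

end divisors

/-- `X` is a projective variety of dimension `N` with canonical singularities. -/
def IsCanonicalVariety {K : Type} [Field K] [Algebra ℂ K] {M : ℕ} (y : Fin (M + 1) → K) (N : ℕ) :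
    Prop :=
  NormalModel y ∧ Algebra.trdeg ℂ K = N ∧ Canonical y N

/-- **Abundance.** Let `X` be a projective variety with canonical singularities of dimension
`∑ i, n i` and `X ⇢ ∏ i, ℙ ^ (n i)` a dominant rational map, let `g i` be lower bounds for the
arrangements `ℓ i` and let `I` be a set of factors. Suppose that at the prime divisors of `X` at
which some multiplicity is positive `1 ≤ ∑ i, g i (v i)`, and `1 < ∑ i, g i (v i)` if the
multiplicity of the distinguished hyperplane of a factor in `I` is positive, and that at the places
over the prime divisors of the product the ramification index `m` satisfies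
`m ≤ 1 + ∑ k, w i k * v i k` for all `i ∉ I` with `v i ≠ 0`, for weights `w i k ≥ 0` with the sum
`n i + 1`, and `m = 1` if all `v i k` are zero, up to finitely many hypersurfaces which are pulled
back from the product of the factors in `I`. Then `κ(X) = ν(X) = ∑ i ∈ I, n i`. -/
theorem result (r : ℕ) (hr : 1 ≤ r) (n q : Fin r → ℕ) (hn : ∀ i, 1 ≤ n i)
    (ℓ : ∀ i, Fin (q i) → Form (n i)) (hℓ : ∀ i k, ℓ i k ≠ 0)
    (g : ∀ i, (Fin (q i) → ℕ) → ℚ) (hg : ∀ i, Bound (ℓ i) (g i))
    (I : Finset (Fin r)) (k0 : ∀ i, Fin (q i)) (w : ∀ i, Fin (q i) → ℚ)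
    (hw0 : ∀ i, i ∉ I → ∀ k, 0 ≤ w i k) (hw1 : ∀ i, i ∉ I → ∑ k, w i k = (n i : ℚ) + 1)
    (F : Finset (MvPolynomial ((i : Fin r) × Fin (n i)) ℂ)) (hF0 : ∀ f ∈ F, f ≠ 0)
    (hF : ∀ f ∈ F, ∀ i, i ∉ I → degreeIn i f = 0)
    (K : Type) [Field K] [Algebra ℂ K] (M : ℕ) (y : Fin (M + 1) → K)
    (hy : IsCanonicalVariety y (∑ i, n i))
    (x : ∀ i, Fin (n i + 1) → K) (hx : ∀ i, x i 0 ≠ 0)
    (hdom : IsTranscendenceBasis ℂ (affine x))
    (hlow : ∀ P, IsPrimeDivisor y P → ∀ (a : Fin r → ℤ) (v : ∀ i, Fin (q i) → ℕ),
      Multiplicities ℓ x P a v → (∃ i, v i ≠ 0) →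
      1 ≤ ∑ i, g i (v i) ∧ ((∃ i ∈ I, v i (k0 i) ≠ 0) → 1 < ∑ i, g i (v i)))
    (hup : ∀ P m, LiesOver x P m → ∀ (a : Fin r → ℤ) (v : ∀ i, Fin (q i) → ℕ),
      Multiplicities ℓ x P a v →
      ((∀ i, v i = 0) → (∀ f ∈ F, P.ord (aeval (affine x) f) = 0) → m = 1) ∧
        ∀ i, i ∉ I → v i ≠ 0 → (m : ℚ) ≤ 1 + ∑ k, w i k * v i k) :
    kodairaDim y (∑ i, n i) 0 = ((∑ i ∈ I, n i : ℕ) : WithBot ℕ) ∧
      ∀ A, Effective y A → Integral y A →
        numericalDim y (∑ i, n i) 0 A = ((∑ i ∈ I, n i : ℕ) : EReal) := by
  have hwtd : ∀ i, Pool.Agent.TH756.PN.Wtd (ℓ i) (g i) := by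
    intro i
    obtain ⟨G, hG⟩ : ∃ G, G = g i := ⟨_, rfl⟩
    have h1 := hg i
    rw [← hG] at h1 ⊢
    cases h1 with
    | irreducible h2 =>
      exact Pool.Agent.TH756.PN.wtd_slack (by omega)
        (Pool.Agent.TH756.PR.slack_of_bnd (hn i) (hℓ i) h2 (Or.inl rfl))
        (Pool.Agent.W392.CG.span_top (hn i) (ℓ i) h2)
    | notSimplicial h2 h3 =>
      exact Pool.Agent.TH756.PN.wtd_slack (by omega)
        (Pool.Agent.TH756.PR.slack_of_bnd (hn i) (hℓ i) h2 (Or.inr ⟨rfl, Or.inr h3⟩))
        (Pool.Agent.W392.CG.span_top (hn i) (ℓ i) h2)
    | logCalabiYau w h2 => exact Pool.Agent.TH756.PN.BasePt.wtd h2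
  exact Pool.Agent.X324.PA.abundance hr hn rfl hy.1 hy.2.1 hy.2.2 hℓ g hwtd I k0 w hw0 hw1 F hF0 hF
    hx hdom hlow hup

end Pool.Agent.Results.MP_c2a5fc_ag.ProjectiveProductCovers
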