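import Pool.Agent.X325.OB.Base

/-!
# Abundance for towers of orbifold fibrations over products of projective spaces

Let `X` be a projective variety with canonical singularities (for instance a projective manifold)
with dominant rational maps

  `X ⇢ W_l ⇢ ... ⇢ W_1 ⇢ W_0 = P^{n_1} × ... × P^{n_m}`, `l ≥ 0`.

On the factors of `W_0` hyperplanes `ℓ i k = 0`, `k < q i`, are given, arbitrary arrangements. The
number `v i k` is the multiplicity of the hyperplane `ℓ i k = 0` at a prime divisor `P` of `X`.
Suppose:

* (the base) for each factor let `g i` be one of the functions `(max v i k) / (n i + 2)` (the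
  arrangement must not be reducible), `(max v i k) / (n i + 1)` (and does not consist of `n i + 2`
  hyperplanes in general position), or the (combinatorial) log discrepancy with respect to a log
  Calabi-Yau pair `(P^{n_i}, ∑ w k H k)`. If not all `v i k` are zero at `P`, then
  `1 ≤ ∑ i, g i (v i)`, with strict inequality if the distinguished hyperplane `k0 i` of a factor
  `i ∈ I` has a positive multiplicity at `P`. For instance: one factor, `X → P^n` is equidimensional
  and the multiplicities of the fibres over the general points of the hyperplane `H k` are at least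
  `m k`, where `(P^n, ∑ w k H k)` is a log Calabi-Yau pair with `w k ≤ 1 - 1 / m k`, and one of these
  inequalities is strict; then the base with its multiple fibres is an orbifold of log general type;
* (the steps of the tower) the fibres of `W_{i+1}` over `W_i`, with the multiplicities of the fibres
  of `X` over `W_{i+1}`, correspond to moving log canonical hyperplane arrangements, and their log
  Kodaira dimension is `lam i` (`OrbifoldFibres`);
* (the fibres of `X` over `W_l`) the fibres of `X` over `W_l` correspond to products of projective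
  spaces `P^{r_j}` with moving log canonical hyperplane arrangements, with weights `w j k` in
  `[0, 1]` (`Fibres`).

Then: if `∑ k, w j k < r_j + 1` for some `j` then `κ(X) = ν(X) = -∞`. Otherwise nonvanishing holds, and
`κ(X) ≥ ∑ i ∈ I, n i + ∑ i, lam i + big`, where `big` is the sum of the `r_j` with
`∑ k, w j k > r_j + 1`; if `I` is the set of all factors and the steps are of log general type then
`κ(X) = ν(X) = dim W_l + big`. For minimal `X` this means that `K_X` is semiample (Kawamata).

The definitions are those of `Pool/Agent/X180/TP/Defs` and `Pool/Agent/X180/OT/Defs`; `kodairaDim`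
and `numericalDim` (`Pool.Agent.Y172`) are the literal definitions of the Kodaira and of the
numerical dimension. The proof combines the forms of the base (`Pool.Agent.TH756.PN.fibred_main`, a
theorem of the starting repository: products of determinants of logarithmic derivatives of the
linear forms with weights on the bases of each arrangement), the forms of the steps
(`Pool.Agent.X180.OT.orb_forms`) and of the fibres (`Pool.Agent.Y191.lc_low`), and the upper bound
(`Pool.Agent.Y191.lc_ab`).
-/

set_option autoImplicit false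

open FF Module Pool.Agent.W602.Cov Pool.Agent.W602.GT
open Pool.Agent.Y172 Pool.Agent.Y191 Pool.Agent.X180.OT
open Pool.Agent.X180.TP (Simplicial form affine BaseField IsCanonicalVariety Fibres big
  Nonvanishing Abundance)

namespace Pool.Agent.Results.MP_c2a5fc_ag.TowersOverCalabiYauBases

section bounds

variable {n q : ℕ}

/-- The bases of the arrangement: the choices of `n + 1` linearly independent forms. -/
abbrev Bases (ℓ : Fin q → Form n) : Type :=
  {b : Fin (n + 1) → Fin q // LinearIndependent ℂ fun a => ℓ (b a)}

/-- There are finitely many bases. -/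
noncomputable instance instFintype (ℓ : Fin q → Form n) : Fintype (Bases ℓ) :=
  Fintype.ofFinite _

/-- `(ℙ ^ n, ∑ w k H k)` is a log Calabi-Yau pair with rational weights: `w` is a rational convex
combination of the vectors with entries `1` for the `n + 1` hyperplanes of a basis `B` (that is, of
`n + 1` linearly independent ones) and `0` for all others. -/
def LogCalabiYau (ℓ : Fin q → Form n) (w : Fin q → ℚ) : Prop :=
  ∃ p : Bases ℓ → ℕ, 0 < ∑ B, p B ∧ ∀ k, (∑ B, (p B : ℚ)) * w k =
    ∑ B, (p B : ℚ) * ((Finset.univ.filter fun a => B.1 a = k).card : ℚ)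

/-- The maximum of the sums of the `v k` over the bases, minus the sum of the `w k * v k`. This is the
log discrepancy of the pair `(ℙ ^ n, ∑ w k H k)` at the toric divisors over the projective space along
which the hyperplanes have the multiplicities `v k`, and a lower bound for it at all divisors with
these multiplicities. -/
noncomputable def logDiscrepancy (ℓ : Fin q → Form n) (w : Fin q → ℚ) (v : Fin q → ℕ) : ℚ :=
  ((Finset.univ.sup fun B : Bases ℓ => ∑ a, v (B.1 a) : ℕ) : ℚ) - ∑ k, w k * v k

/-- The lower bounds for one arrangement. -/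
inductive Bound (ℓ : Fin q → Form n) : ((Fin q → ℕ) → ℚ) → Prop
  | irreducible : ¬ Reducible ℓ →
      Bound ℓ fun v => ((Finset.univ.sup v : ℕ) : ℚ) / ((n + 2 : ℕ) : ℚ)
  | notSimplicial : ¬ Reducible ℓ → ¬ Simplicial ℓ →
      Bound ℓ fun v => ((Finset.univ.sup v : ℕ) : ℚ) / ((n + 1 : ℕ) : ℚ)
  | logCalabiYau (w : Fin q → ℚ) : LogCalabiYau ℓ w → Bound ℓ (logDiscrepancy ℓ w)

end bounds

/-- The condition on the base: if the hyperplanes `ℓ i k` have the orders `a i + v i k` at the prime
divisor `P` of `X`, where `a i` is the minimum of the orders of all linear forms on the `i`-th factor,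
and not all `v i k` are zero, then `1 ≤ ∑ i, g i (v i)`, and `1 < ∑ i, g i (v i)` if the multiplicity
`v i (k0 i)` of the distinguished hyperplane of a factor `i ∈ I` is positive. -/
def Multiplicities {m : ℕ} {n q : Fin m → ℕ} {K : Type} [Field K] [Algebra ℂ K] {N : ℕ}
    (y : Fin (N + 1) → K) (ℓ : ∀ i, Fin (q i) → Form (n i)) (x : ∀ i, Fin (n i + 1) → K)
    (g : ∀ i, (Fin (q i) → ℕ) → ℚ) (I : Finset (Fin m)) (k0 : ∀ i, Fin (q i)) : Prop :=
  ∀ P : Place ℂ K, IsPrimeDivisor y P → ∀ (a : Fin m → ℤ) (v : ∀ i, Fin (q i) → ℕ),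
    (∀ i (φ : Form (n i)), form φ (x i) = 0 ∨ a i ≤ P.ord (form φ (x i))) →
    (∀ i, ∃ φ : Form (n i), form φ (x i) ≠ 0 ∧ P.ord (form φ (x i)) = a i) →
    (∀ i k, P.ord (form (ℓ i k) (x i)) = a i + v i k) → (∃ i, v i ≠ 0) →
    1 ≤ ∑ i, g i (v i) ∧ ((∃ i ∈ I, v i (k0 i) ≠ 0) → 1 < ∑ i, g i (v i))

/-- **Abundance and nonvanishing.** Let `ℓ i` be arbitrary arrangements of hyperplanes in projective
spaces of dimensions `n i ≥ 1`, `g i` lower bounds, `I` a set of factors. Let `X` be a projective
variety with canonical singularities and `X ⇢ W_l ⇢ ... ⇢ W_0` an orbifold tower over the product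
`W_0` of the projective spaces, given by homogeneous coordinates `x i`, of which the steps have
dimensions `e i` and log Kodaira dimensions `lam i`, and let the fibres of `X` over `W_l` be as in
`Fibres`. Suppose that the condition `Multiplicities` holds. Then
`κ(X) ≥ ∑ i ∈ I, n i + ∑ i, lam i + big ≥ 0` if `r j + 1 ≤ ∑ i, w j i` for all `j`, and
`κ(X) = ν(X) = -∞` otherwise. If `I` is the set of all factors and `lam i = e i` for all `i` then
`κ(X) = ν(X) = dim W_l + big` in the first case. -/
theorem result {m : ℕ} (n q : Fin m → ℕ) (hn : ∀ i, 1 ≤ n i)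
    (ℓ : ∀ i, Fin (q i) → Form (n i)) (hℓ : ∀ i k, ℓ i k ≠ 0)
    (g : ∀ i, (Fin (q i) → ℕ) → ℚ) (hg : ∀ i, Bound (ℓ i) (g i))
    (I : Finset (Fin m)) (k0 : ∀ i, Fin (q i)) (K : Type) [Field K] [Algebra ℂ K]
    (N l : ℕ) (E : Fin (l + 1) → IntermediateField ℂ K) (D : Fin (l + 1) → ℕ) (e lam : Fin l → ℕ)
    (c : ℕ) (r s : Fin c → ℕ) (y : Fin (N + 1) → K)
    (hy : IsCanonicalVariety y (D (Fin.last l) + ∑ j, r j)) (x : ∀ i, Fin (n i + 1) → K)
    (hx0 : ∀ i, x i 0 ≠ 0) (hind : AlgebraicIndependent ℂ (affine x)) (hE0 : E 0 = BaseField x)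
    (hT : IsOrbifoldTower {P | IsPrimeDivisor y P} (fun _ => 0) E D e lam)
    (hm : Multiplicities y ℓ x g I k0)
    (w : ∀ j, Fin (s j) → ℚ) (hF : Fibres y (E (Fin.last l)) r s w) :
    Nonvanishing y (D (Fin.last l) + ∑ j, r j) (∑ i ∈ I, n i + ∑ i, lam i + big r s w) r s w ∧
      (I = Finset.univ → (∀ i, lam i = e i) →
        Abundance y (D (Fin.last l) + ∑ j, r j) (D (Fin.last l)) r s w) := by
  have hwtd : ∀ i, Pool.Agent.TH756.PN.Wtd (ℓ i) (g i) := by
    intro i
    obtain ⟨G, hG⟩ : ∃ G, G = g i := ⟨_, rfl⟩
    have h1 := hg i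
    rw [← hG] at h1 ⊢
    cases h1 with
    | irreducible h2 =>
      exact Pool.Agent.TH756.PN.wtd_slack (by omega)
        (Pool.Agent.TH756.PR.slack_of_bnd (hn i) (hℓ i) h2 (Or.inl rfl))
        (Pool.Agent.W392.CG.span_top (hn i) (ℓ i) h2)
    | notSimplicial h2 h3 =>
      exact Pool.Agent.TH756.PN.wtd_slack (by omega)
        (Pool.Agent.TH756.PR.slack_of_bnd (hn i) (hℓ i) h2 (Or.inr ⟨rfl, Or.inr h3⟩))
        (Pool.Agent.W392.CG.span_top (hn i) (ℓ i) h2)
    | logCalabiYau w h2 => exact Pool.Agent.TH756.PN.BasePt.wtd h2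
  exact Pool.Agent.X325.OB.tower_main hℓ g hwtd hy hx0 hind hE0 hT I k0 hm hF

end Pool.Agent.Results.MP_c2a5fc_ag.TowersOverCalabiYauBases
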